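import Pool.Agent.K9h55.CD.Sid

set_option autoImplicit false

open Set Topology

namespace Pool.Agent.K9h55.CD

/-- a triangular face without corners at the vertices: corners, edges which contain the sides -/
structure Tri (n : ℕ) (a b c : ℝ × ℝ) (e1 e2 e3 : Fin n × Fin n) : Prop where
  h : AffineIndependent ℝ ![a, b, c]
  hF : IsFace (pp n) (interior (convexHull ℝ {a, b, c}))
  l1 : e1.1 < e1.2
  l2 : e2.1 < e2.2
  l3 : e3.1 < e3.2
  s1 : segment ℝ b c ⊆ segment ℝ (pp n e1.1) (pp n e1.2)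
  s2 : segment ℝ a c ⊆ segment ℝ (pp n e2.1) (pp n e2.2)
  s3 : segment ℝ a b ⊆ segment ℝ (pp n e3.1) (pp n e3.2)
  ha : ∀ v, a ≠ pp n v
  hb : ∀ v, b ≠ pp n v
  hc : ∀ v, c ≠ pp n v

variable {n : ℕ} {a b c : ℝ × ℝ} {e1 e2 e3 : Fin n × Fin n}

lemma Tri.rot (T : Tri n a b c e1 e2 e3) : Tri n b c a e2 e3 e1 where
  h := aff_rot T.h
  hF := by rw [set_rot]; exact T.hF
  l1 := T.l2
  l2 := T.l3
  l3 := T.l1
  s1 := by rw [segment_symm]; exact T.s2
  s2 := by rw [segment_symm]; exact T.s3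
  s3 := T.s1
  ha := T.hb
  hb := T.hc
  hc := T.ha

lemma Tri.swap (T : Tri n a b c e1 e2 e3) : Tri n a c b e1 e3 e2 where
  h := aff_swap T.h
  hF := by rw [set_swap]; exact T.hF
  l1 := T.l1
  l2 := T.l3
  l3 := T.l2
  s1 := by rw [segment_symm]; exact T.s1
  s2 := T.s3
  s3 := T.s2
  ha := T.ha
  hb := T.hc
  hc := T.hb

/-- two different points are on at most one chord line -/
lemma pt_unique {i j k l : Fin n} (hij : i < j) (hkl : k < l) (hne : ¬ (i = k ∧ j = l))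
    {q q' : ℝ × ℝ} (h1 : L (X i) (X j) q = 0) (h2 : L (X k) (X l) q = 0)
    (h3 : L (X i) (X j) q' = 0) (h4 : L (X k) (X l) q' = 0) : q = q' := by
  by_contra hq
  exact hne (line_unique hij hkl hq h1 h3 h2 h4)

lemma Tri.ne12 (T : Tri n a b c e1 e2 e3) : e1.1 ≠ e2.1 := by
  intro h0
  have hc1 : c ∈ segment ℝ (pp n e1.1) (pp n e1.2) := T.s1 (right_mem_segment ℝ b c)
  have hc2 : c ∈ segment ℝ (pp n e2.1) (pp n e2.2) := T.s2 (right_mem_segment ℝ a c)
  have hb1 : b ∈ segment ℝ (pp n e1.1) (pp n e1.2) := T.s1 (left_mem_segment ℝ b c)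
  have ha2 : a ∈ segment ℝ (pp n e2.1) (pp n e2.2) := T.s2 (left_mem_segment ℝ a c)
  rw [mem_chord T.l1] at hc1 hb1
  rw [mem_chord T.l2] at hc2 ha2
  have hv : L (X e1.1) (X e1.2) (pp n e1.1) = 0 := by simp only [L, pp, P]; ring
  have hv2 : L (X e2.1) (X e2.2) (pp n e1.1) = 0 := by rw [h0]; simp only [L, pp, P]; ring
  obtain ⟨-, h2⟩ := line_unique T.l1 T.l2 (T.hc e1.1) hc1.2.2 hv hc2.2.2 hv2
  -- all three corners on one line
  have ha1 : L (X e1.1) (X e1.2) a = 0 := by rw [h0, h2]; exact ha2.2.2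
  have h := T.h
  have hq := (comb_coord h ((1/3 : ℝ) • a + (1/3 : ℝ) • b + (1/3 : ℝ) • c))
  -- a, b, c collinear: contradiction
  exact absurd ha1 (fun _ => by
    have hL : ∀ q : ℝ × ℝ, L (X e1.1) (X e1.2) q = 0 := by
      intro q
      obtain ⟨α, β, γ, hs, he, -⟩ := comb_coord h q
      have e : α = 1 - β - γ := by linarith
      have key : L (X e1.1) (X e1.2) q = α * L (X e1.1) (X e1.2) a + β * L (X e1.1) (X e1.2) b +
          γ * L (X e1.1) (X e1.2) c := by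
        subst e
        rw [he]
        simp only [L, Prod.snd_add, Prod.fst_add, Prod.smul_snd, Prod.smul_fst, smul_eq_mul]
        ring
      rw [key, ha1, hb1.2.2, hc1.2.2]; ring
    have h5 := hL (0, 0)
    have h6 := hL (0, 1)
    simp only [L] at h5 h6
    linarith)

lemma last_ineq {A1 A2 A3 B1 B2 B3 J : ℝ} (pA1 : 0 < A1) (f12 : 4 * A1 ≤ A2) (f23 : 4 * A2 ≤ A3)
    (f31 : 4 * A3 ≤ B1) (fB12 : 4 * B1 ≤ B2) (fB23 : 4 * B2 ≤ B3) (g1 : 4 * B3 ≤ J) :
    ∃ x, A3 ≤ x ∧ x ≤ J ∧ 0 < (A3 + J - A1 - B1) * x - (A3 * J - A1 * B1) ∧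
      (A3 + J - A2 - B2) * x - (A3 * J - A2 * B2) < 0 ∧
      0 < (A3 + J - A3 - B3) * x - (A3 * J - A3 * B3) := by
  have pA3 : 0 < A3 := by linarith
  have pB1 : 0 < B1 := by linarith
  have pJ : 0 < J := by linarith
  have pAB : 0 < A3 * B1 := mul_pos pA3 pB1
  obtain ⟨δ, pδ, eδ⟩ : ∃ δ : ℝ, 0 < δ ∧ δ * J = (3 / 2 : ℝ) * (A3 * B1) :=
    ⟨(3 / 2 : ℝ) * (A3 * B1) / J, by positivity, by field_simp⟩
  refine ⟨A3 + δ, by linarith, ?_, ?_, ?_, ?_⟩
  · have h2 : A3 ≤ J / 4 := by linarith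
    have h3 : B1 ≤ J / 4 := by linarith
    have h4 : A3 * B1 ≤ J / 4 * (J / 4) := mul_le_mul h2 h3 pB1.le (by linarith)
    have h5 : (J / 4) * J ≤ (J - A3) * J := mul_le_mul_of_nonneg_right (by linarith) pJ.le
    have h1 : δ * J ≤ (J - A3) * J := by
      rw [eδ]
      have h6 : 0 < J * J := mul_pos pJ pJ
      have e1 : J / 4 * (J / 4) = J * J / 16 := by ring
      have e2 : J / 4 * J = J * J / 4 := by ring
      rw [e1] at h4
      rw [e2] at h5
      linarith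
    have := le_of_mul_le_mul_right h1 pJ
    linarith
  · have e : (A3 + J - A1 - B1) * (A3 + δ) - (A3 * J - A1 * B1) =
        δ * J + (A3 - A1) * δ - B1 * δ - (A3 - A1) * (B1 - A3) := by ring
    rw [e, eδ]
    have h1 : 4 * (B1 * δ) ≤ δ * J := by
      have : B1 * 4 ≤ J := by linarith
      have := mul_le_mul_of_nonneg_left this pδ.le
      linarith
    rw [eδ] at h1
    have h2 : 0 < (A3 - A1) * δ := mul_pos (by linarith) pδ
    have h3 : (A3 - A1) * (B1 - A3) ≤ A3 * B1 :=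
      mul_le_mul (by linarith) (by linarith) (by linarith) (by linarith)
    linarith
  · have e : (A3 + J - A2 - B2) * (A3 + δ) - (A3 * J - A2 * B2) =
        δ * J + (A3 - A2 - B2) * δ - (A3 - A2) * (B2 - A3) := by ring
    rw [e, eδ]
    have h2 : (A3 - A2 - B2) * δ < 0 := mul_neg_of_neg_of_pos (by linarith) pδ
    have h3 : (3 / 4 * A3) * (3 * B1) ≤ (A3 - A2) * (B2 - A3) :=
      mul_le_mul (by linarith) (by linarith) (by linarith) (by linarith)
    have e2 : (3 / 4 * A3) * (3 * B1) = 9 / 4 * (A3 * B1) := by ring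
    rw [e2] at h3
    linarith
  · have e : (A3 + J - A3 - B3) * (A3 + δ) - (A3 * J - A3 * B3) = (J - B3) * δ := by ring
    rw [e]
    exact mul_pos (by linarith) pδ

/-- the combinatorial type of a triangular face without corners at the vertices -/
lemma Tri.main (T : Tri n a b c e1 e2 e3) (h12 : e1.1 < e2.1) (h23 : e2.1 < e3.1) :
    (e1.1 : ℕ) = 0 ∧ (e3.1 : ℕ) = e2.1 + 1 ∧ (e2.2 : ℕ) = e1.2 + 1 ∧ (e3.2 : ℕ) + 1 = n ∧
      e3.1 < e1.2 ∧ e2.2 < e3.2 := by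
  have hb1 := T.s1 (left_mem_segment ℝ b c)
  have hc1 := T.s1 (right_mem_segment ℝ b c)
  have ha2 := T.s2 (left_mem_segment ℝ a c)
  have hc2 := T.s2 (right_mem_segment ℝ a c)
  have ha3 := T.s3 (left_mem_segment ℝ a b)
  have hb3 := T.s3 (right_mem_segment ℝ a b)
  obtain ⟨i21, i22⟩ := interleave T.l1 T.l2 h12 hc1 hc2 T.hc
  obtain ⟨i31, i32⟩ := interleave T.l1 T.l3 (h12.trans h23) hb1 hb3 T.hb
  obtain ⟨i41, i42⟩ := interleave T.l2 T.l3 h23 ha2 ha3 T.ha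
  rw [mem_chord T.l1] at hb1 hc1
  rw [mem_chord T.l2] at ha2 hc2
  rw [mem_chord T.l3] at ha3 hb3
  have hkey := key_ineq h12 h23 i31 i22
  set A1 := X e1.1 with hA1
  set A2 := X e2.1 with hA2
  set A3 := X e3.1 with hA3
  set B1 := X e1.2 with hB1
  set B2 := X e2.2 with hB2
  set B3 := X e3.2 with hB3
  have pA1 : 0 < A1 := X_pos _
  have f12 : 4 * A1 ≤ A2 := X_four h12
  have f23 : 4 * A2 ≤ A3 := X_four h23
  have f31 : 4 * A3 ≤ B1 := X_four i31
  have fB12 : 4 * B1 ≤ B2 := X_four i22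
  have fB23 : 4 * B2 ≤ B3 := X_four i42
  have hslope : 0 < A2 + B2 - A1 - B1 := by linarith
  -- signs at the corners
  have sa : 0 < L A1 B1 a := by
    have e : L A1 B1 a = (A2 + B2 - A1 - B1) * a.1 - (A2 * B2 - A1 * B1) := by
      have := ha2.2.2
      unfold L at this ⊢
      linarith
    rw [e]
    have := mul_le_mul_of_nonneg_left ha3.1 hslope.le
    linarith
  have sb : L A2 B2 b < 0 := by
    have e : L A2 B2 b = -((A2 + B2 - A1 - B1) * b.1 - (A2 * B2 - A1 * B1)) := by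
      have := hb1.2.2
      unfold L at this ⊢
      linarith
    rw [e]
    have := mul_le_mul_of_nonneg_left hb3.1 hslope.le
    linarith
  have hc13 : c.1 < A3 := by
    have e : (A2 + B2 - A1 - B1) * c.1 = A2 * B2 - A1 * B1 := by
      have h1 := hc1.2.2
      have h2 := hc2.2.2
      unfold L at h1 h2
      linarith
    by_contra hn
    push Not at hn
    have := mul_le_mul_of_nonneg_left hn hslope.le
    linarith
  have sc : 0 < L A3 B3 c := by
    have e : L A3 B3 c = (A3 * B3 - A1 * B1) - (A3 + B3 - A1 - B1) * c.1 := by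
      have := hc1.2.2
      unfold L at this ⊢
      linarith
    rw [e]
    have h1 : (A3 + B3 - A1 - B1) * c.1 ≤ (A3 + B3 - A1 - B1) * A3 :=
      mul_le_mul_of_nonneg_left hc13.le (by linarith)
    nlinarith [mul_pos (show 0 < A3 - A1 by linarith) (show 0 < B1 - A3 by linarith)]
  -- no edge through the face
  have hno : ∀ (k l : Fin n) (hkl : k < l) (x : ℝ), X k ≤ x → x ≤ X l →
      0 < (X k + X l - A1 - B1) * x - (X k * X l - A1 * B1) →
      (X k + X l - A2 - B2) * x - (X k * X l - A2 * B2) < 0 →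
      0 < (X k + X l - A3 - B3) * x - (X k * X l - A3 * B3) → False := by
    intro k l hkl x hx1 hx2 g1 g2 g3
    set q : ℝ × ℝ := (x, (X k + X l) * x - X k * X l) with hq
    have m1 : q ∈ drawn (pp n) := by
      rw [mem_drawn]
      refine ⟨k, l, hkl, (mem_chord hkl q).2 ⟨hx1, hx2, ?_⟩⟩
      simp only [L, hq]; ring
    have m2 : q ∈ interior (convexHull ℝ {a, b, c}) := by
      refine mem_int_of_lines T.h hb1.2.2 hc1.2.2 ha2.2.2 hc2.2.2 ha3.2.2 hb3.2.2 ?_ ?_ ?_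
      · refine mul_pos ?_ sa
        simp only [L, hq]; linarith
      · refine mul_pos_of_neg_of_neg ?_ sb
        simp only [L, hq]; linarith
      · refine mul_pos ?_ sc
        simp only [L, hq]; linarith
    exact face_sub T.hF m2 m1
  refine ⟨?_, ?_, ?_, ?_, i31, i42⟩
  · by_contra hne
    have hpos : 0 < (e1.1 : ℕ) := Nat.pos_of_ne_zero hne
    obtain ⟨k, hk⟩ : ∃ k : Fin n, (k : ℕ) = 0 := ⟨⟨0, by omega⟩, rfl⟩
    have hk1 : k < e1.1 := Fin.lt_def.2 (by omega)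
    have f0 : 4 * X k ≤ A1 := X_four hk1
    have p0 := X_pos k
    have hkey2 := key_ineq (a := k) (b := e2.1) (c := e3.1) (d := e1.2) (e := e2.2)
      (hk1.trans h12) h23 i31 i22
    rw [← hA2, ← hA3, ← hB1, ← hB2] at hkey2
    have g1 : 0 < (X k + B1 - A1 - B1) * A3 - (X k * B1 - A1 * B1) := by
      have e : (X k + B1 - A1 - B1) * A3 - (X k * B1 - A1 * B1) = (A1 - X k) * (B1 - A3) := by ring
      rw [e]; exact mul_pos (by linarith) (by linarith)
    have g2 : (X k + B1 - A2 - B2) * A3 - (X k * B1 - A2 * B2) < 0 := by linarith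
    have g3 : 0 < (X k + B1 - A3 - B3) * A3 - (X k * B1 - A3 * B3) := by
      have e : (X k + B1 - A3 - B3) * A3 - (X k * B1 - A3 * B3) = (A3 - X k) * (B1 - A3) := by ring
      rw [e]; exact mul_pos (by linarith) (by linarith)
    exact hno k e1.2 (hk1.trans T.l1) A3 (by linarith) (by linarith) g1 g2 g3
  · by_contra hne
    have hlt : (e2.1 : ℕ) + 1 < e3.1 := by
      have : (e2.1 : ℕ) < e3.1 := h23
      omega
    obtain ⟨k, hk⟩ : ∃ k : Fin n, (k : ℕ) = e2.1 + 1 := ⟨⟨e2.1 + 1, by omega⟩, rfl⟩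
    have hk1 : e2.1 < k := Fin.lt_def.2 (by omega)
    have hk2 : k < e3.1 := Fin.lt_def.2 (by omega)
    have g1 : 4 * A2 ≤ X k := X_four hk1
    have g2 : 4 * X k ≤ A3 := X_four hk2
    have hkey2 := key_ineq (a := e1.1) (b := k) (c := e3.1) (d := e1.2) (e := e2.2)
      (h12.trans hk1) hk2 i31 i22
    rw [← hA1, ← hA3, ← hB1, ← hB2] at hkey2
    have g3 : 0 < (X k + B2 - A1 - B1) * A3 - (X k * B2 - A1 * B1) := by linarith
    have g4 : (X k + B2 - A2 - B2) * A3 - (X k * B2 - A2 * B2) < 0 := by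
      have e : (X k + B2 - A2 - B2) * A3 - (X k * B2 - A2 * B2) = -((X k - A2) * (B2 - A3)) := by
        ring
      rw [e]
      have := mul_pos (show 0 < X k - A2 by linarith) (show 0 < B2 - A3 by linarith)
      linarith
    have g5 : 0 < (X k + B2 - A3 - B3) * A3 - (X k * B2 - A3 * B3) := by
      have e : (X k + B2 - A3 - B3) * A3 - (X k * B2 - A3 * B3) = (A3 - X k) * (B2 - A3) := by ring
      rw [e]; exact mul_pos (by linarith) (by linarith)
    exact hno k e2.2 (hk2.trans i41) A3 (by linarith) (by linarith) g3 g4 g5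
  · by_contra hne
    have hlt : (e1.2 : ℕ) + 1 < e2.2 := by
      have : (e1.2 : ℕ) < e2.2 := i22
      omega
    obtain ⟨j, hj⟩ : ∃ j : Fin n, (j : ℕ) = e1.2 + 1 := ⟨⟨e1.2 + 1, by omega⟩, rfl⟩
    have hj1 : e1.2 < j := Fin.lt_def.2 (by omega)
    have hj2 : j < e2.2 := Fin.lt_def.2 (by omega)
    have g1 : 4 * B1 ≤ X j := X_four hj1
    have g2 : 4 * X j ≤ B2 := X_four hj2
    have hkey2 := key_ineq (a := e1.1) (b := e2.1) (c := e3.1) (d := e1.2) (e := j)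
      h12 h23 i31 hj1
    rw [← hA1, ← hA2, ← hA3, ← hB1] at hkey2
    have g3 : 0 < (A2 + X j - A1 - B1) * A3 - (A2 * X j - A1 * B1) := by linarith
    have g4 : (A2 + X j - A2 - B2) * A3 - (A2 * X j - A2 * B2) < 0 := by
      have e : (A2 + X j - A2 - B2) * A3 - (A2 * X j - A2 * B2) = -((B2 - X j) * (A3 - A2)) := by
        ring
      rw [e]
      have := mul_pos (show 0 < B2 - X j by linarith) (show 0 < A3 - A2 by linarith)
      linarith
    have g5 : 0 < (A2 + X j - A3 - B3) * A3 - (A2 * X j - A3 * B3) := by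
      have e : (A2 + X j - A3 - B3) * A3 - (A2 * X j - A3 * B3) = (A3 - A2) * (X j - A3) := by ring
      rw [e]; exact mul_pos (by linarith) (by linarith)
    exact hno e2.1 j (h23.trans (i31.trans hj1)) A3 (by linarith) (by linarith) g3 g4 g5
  · by_contra hne
    have hlt : (e3.2 : ℕ) + 1 < n := by
      have : (e3.2 : ℕ) < n := e3.2.2
      omega
    obtain ⟨j, hj⟩ : ∃ j : Fin n, (j : ℕ) = e3.2 + 1 := ⟨⟨e3.2 + 1, hlt⟩, rfl⟩
    have hj1 : e3.2 < j := Fin.lt_def.2 (by omega)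
    have g1 : 4 * B3 ≤ X j := X_four hj1
    obtain ⟨x, x1, x2, x3, x4, x5⟩ := last_ineq pA1 f12 f23 f31 fB12 fB23 g1
    exact hno e3.1 j (T.l3.trans hj1) x x1 x2 x3 x4 x5

/-- the key of a triangular face without corners at vertices -/
def KeyA (n : ℕ) (F : Set (ℝ × ℝ)) (s t : ℕ) : Prop :=
  ∃ (a b c : ℝ × ℝ) (e1 e2 e3 : Fin n × Fin n), F = interior (convexHull ℝ {a, b, c}) ∧
    Tri n a b c e1 e2 e3 ∧ e1.1 < e2.1 ∧ e2.1 < e3.1 ∧ (e2.1 : ℕ) = s ∧ (e1.2 : ℕ) = t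

lemma KeyA.range {F : Set (ℝ × ℝ)} {s t : ℕ} (h : KeyA n F s t) :
    1 ≤ s ∧ s + 2 ≤ t ∧ t + 3 ≤ n := by
  obtain ⟨a, b, c, e1, e2, e3, -, T, h12, h23, rfl, rfl⟩ := h
  obtain ⟨k1, k2, k3, k4, k5, k6⟩ := T.main h12 h23
  have r1 : (e1.1 : ℕ) < e2.1 := h12
  have r2 : (e3.1 : ℕ) < e1.2 := k5
  have r3 : (e2.2 : ℕ) < e3.2 := k6
  omega

lemma KeyA.unique {F F' : Set (ℝ × ℝ)} {s t : ℕ} (h : KeyA n F s t) (h' : KeyA n F' s t) :
    F = F' := by
  obtain ⟨a, b, c, e1, e2, e3, rfl, T, h12, h23, hs, ht⟩ := h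
  obtain ⟨a', b', c', f1, f2, f3, rfl, T', h12', h23', hs', ht'⟩ := h'
  obtain ⟨k1, k2, k3, k4, k5, k6⟩ := T.main h12 h23
  obtain ⟨k1', k2', k3', k4', k5', k6'⟩ := T'.main h12' h23'
  have E1 : e1 = f1 := Prod.ext (Fin.ext (by omega)) (Fin.ext (by omega))
  have E2 : e2 = f2 := Prod.ext (Fin.ext (by omega)) (Fin.ext (by omega))
  have E3 : e3 = f3 := Prod.ext (Fin.ext (by omega)) (Fin.ext (by omega))
  subst E1 E2 E3
  have hb1 := (mem_chord T.l1 _).1 (T.s1 (left_mem_segment ℝ b c))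
  have hc1 := (mem_chord T.l1 _).1 (T.s1 (right_mem_segment ℝ b c))
  have ha2 := (mem_chord T.l2 _).1 (T.s2 (left_mem_segment ℝ a c))
  have hc2 := (mem_chord T.l2 _).1 (T.s2 (right_mem_segment ℝ a c))
  have ha3 := (mem_chord T.l3 _).1 (T.s3 (left_mem_segment ℝ a b))
  have hb3 := (mem_chord T.l3 _).1 (T.s3 (right_mem_segment ℝ a b))
  have hb1' := (mem_chord T.l1 _).1 (T'.s1 (left_mem_segment ℝ b' c'))
  have hc1' := (mem_chord T.l1 _).1 (T'.s1 (right_mem_segment ℝ b' c'))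
  have ha2' := (mem_chord T.l2 _).1 (T'.s2 (left_mem_segment ℝ a' c'))
  have hc2' := (mem_chord T.l2 _).1 (T'.s2 (right_mem_segment ℝ a' c'))
  have ha3' := (mem_chord T.l3 _).1 (T'.s3 (left_mem_segment ℝ a' b'))
  have hb3' := (mem_chord T.l3 _).1 (T'.s3 (right_mem_segment ℝ a' b'))
  have Ea : a = a' := pt_unique T.l2 T.l3 (fun h => h23.ne h.1) ha2.2.2 ha3.2.2 ha2'.2.2 ha3'.2.2
  have Eb : b = b' := pt_unique T.l1 T.l3 (fun h => (h12.trans h23).ne h.1) hb1.2.2 hb3.2.2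
    hb1'.2.2 hb3'.2.2
  have Ec : c = c' := pt_unique T.l1 T.l2 (fun h => h12.ne h.1) hc1.2.2 hc2.2.2 hc1'.2.2 hc2'.2.2
  rw [Ea, Eb, Ec]

lemma s_cab (a b c : ℝ × ℝ) : ({a, b, c} : Set (ℝ × ℝ)) = {c, a, b} := by
  ext x; simp only [mem_insert_iff, mem_singleton_iff]; tauto

lemma s_acb (a b c : ℝ × ℝ) : ({a, b, c} : Set (ℝ × ℝ)) = {a, c, b} := by
  ext x; simp only [mem_insert_iff, mem_singleton_iff]; tauto

lemma s_bca (a b c : ℝ × ℝ) : ({a, b, c} : Set (ℝ × ℝ)) = {b, c, a} := by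
  ext x; simp only [mem_insert_iff, mem_singleton_iff]; tauto

lemma s_cba (a b c : ℝ × ℝ) : ({a, b, c} : Set (ℝ × ℝ)) = {c, b, a} := by
  ext x; simp only [mem_insert_iff, mem_singleton_iff]; tauto

lemma s_bac (a b c : ℝ × ℝ) : ({a, b, c} : Set (ℝ × ℝ)) = {b, a, c} := by
  ext x; simp only [mem_insert_iff, mem_singleton_iff]; tauto

lemma Tri.exists_key (T : Tri n a b c e1 e2 e3) :
    ∃ s t, KeyA n (interior (convexHull ℝ {a, b, c})) s t := by
  have n12 := T.ne12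
  have n23 := T.rot.ne12
  have n31 := T.rot.rot.ne12
  rcases lt_or_gt_of_ne n12 with h12 | h12
  · rcases lt_or_gt_of_ne n23 with h23 | h23
    · exact ⟨_, _, a, b, c, e1, e2, e3, rfl, T, h12, h23, rfl, rfl⟩
    · rcases lt_or_gt_of_ne n31 with h31 | h31
      · -- 3 < 1 < 2
        exact ⟨_, _, c, a, b, e3, e1, e2, by rw [s_cab a b c], T.rot.rot, h31, h12, rfl, rfl⟩
      · -- 1 < 3 < 2
        exact ⟨_, _, a, c, b, e1, e3, e2, by rw [s_acb a b c], T.swap, h31, h23, rfl, rfl⟩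
  · rcases lt_or_gt_of_ne n31 with h31 | h31
    · rcases lt_or_gt_of_ne n23 with h23 | h23
      · -- 2 < 3 < 1
        exact ⟨_, _, b, c, a, e2, e3, e1, by rw [s_bca a b c], T.rot, h23, h31, rfl, rfl⟩
      · -- 3 < 2 < 1
        exact ⟨_, _, c, b, a, e3, e2, e1, by rw [s_cba a b c], T.rot.rot.swap, h23, h12, rfl, rfl⟩
    · -- 2 < 1 < 3
      exact ⟨_, _, b, a, c, e2, e1, e3, by rw [s_bac a b c], T.rot.swap, h12, h31, rfl, rfl⟩

end Pool.Agent.K9h55.CD
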