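import Pool.Agent.K9h55.CD.Sid

set_option autoImplicit false

open Set Topology

namespace Pool.Agent.K9h55.CD

variable {n : ℕ} {a b c : ℝ × ℝ} {F F' : Set (ℝ × ℝ)}

lemma not_on_line (h : AffineIndependent ℝ ![a, b, c]) {u w : ℝ} (ha : L u w a = 0)
    (hb : L u w b = 0) (hc : L u w c = 0) : False := by
  have hL : ∀ q : ℝ × ℝ, L u w q = 0 := by
    intro q
    obtain ⟨α, β, γ, hs, he, -⟩ := comb_coord h q
    have e : α = 1 - β - γ := by linarith
    have key : L u w q = α * L u w a + β * L u w b + γ * L u w c := by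
      subst e
      rw [he]
      simp only [L, Prod.snd_add, Prod.fst_add, Prod.smul_snd, Prod.smul_fst, smul_eq_mul]
      ring
    rw [key, ha, hb, hc]; ring
  have h5 := hL (0, 0)
  have h6 := hL (0, 1)
  simp only [L] at h5 h6
  linarith

/-- the sides of a triangular face are in the union of the edges -/
lemma side_drawn {p : Fin n → ℝ × ℝ} (h : AffineIndependent ℝ ![a, b, c])
    (hF : IsFace p (interior (convexHull ℝ {a, b, c}))) : segment ℝ b c ⊆ drawn p := by
  intro q hq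
  by_contra hn
  refine side_notMem h hq (face_closure hF (hull_sub_closure h ?_) hn)
  refine segment_subset_convexHull ?_ ?_ hq
  · simp
  · simp

lemma pt_ne (h : AffineIndependent ℝ ![a, b, c]) : a ≠ b ∧ b ≠ c ∧ a ≠ c := by
  have := h.injective
  refine ⟨fun e => ?_, fun e => ?_, fun e => ?_⟩
  · have h1 : (0 : Fin 3) = 1 := this (by simpa using e)
    exact absurd h1 (by decide)
  · have h1 : (1 : Fin 3) = 2 := this (by simpa using e)
    exact absurd h1 (by decide)
  · have h1 : (0 : Fin 3) = 2 := this (by simpa using e)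
    exact absurd h1 (by decide)

lemma side_exists (h : AffineIndependent ℝ ![a, b, c])
    (hF : IsFace (pp n) (interior (convexHull ℝ {a, b, c}))) :
    ∃ e : Fin n × Fin n, e.1 < e.2 ∧ segment ℝ b c ⊆ segment ℝ (pp n e.1) (pp n e.2) := by
  obtain ⟨i, j, hij, hs⟩ := side_chord (pt_ne h).2.1 (side_drawn h hF)
  exact ⟨(i, j), hij, hs⟩

/-- the face `F` is a triangle with the corner `pp n v` and with sides on the edges from `v` to `k`
and from `v` to `l` -/
def KeyB (n : ℕ) (F : Set (ℝ × ℝ)) (v k l : Fin n) : Prop :=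
  ∃ t s : ℝ, 0 < t ∧ t ≤ 1 ∧ 0 < s ∧ s ≤ 1 ∧
    AffineIndependent ℝ ![pp n v, pp n v + t • (pp n k - pp n v),
      pp n v + s • (pp n l - pp n v)] ∧
    F = interior (convexHull ℝ {pp n v, pp n v + t • (pp n k - pp n v),
      pp n v + s • (pp n l - pp n v)})

variable {v k l : Fin n}

lemma KeyB.symm (h : KeyB n F v k l) : KeyB n F v l k := by
  obtain ⟨t, s, h1, h2, h3, h4, h5, rfl⟩ := h
  exact ⟨s, t, h3, h4, h1, h2, aff_swap h5, by rw [set_swap]⟩

lemma KeyB.near (h : KeyB n F v k l) {lam mu : ℝ} (hl : 0 < lam) (hm : 0 < mu) :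
    ∃ ε0 : ℝ, 0 < ε0 ∧ ∀ ε, 0 < ε → ε ≤ ε0 →
      pp n v + ((ε * lam) • (pp n k - pp n v) + (ε * mu) • (pp n l - pp n v)) ∈ F := by
  obtain ⟨t, s, ht, -, hs, -, hA, rfl⟩ := h
  have hK : 0 < lam / t + mu / s := by positivity
  refine ⟨1 / (2 * (lam / t + mu / s)), by positivity, fun ε hε hε0 => ?_⟩
  rw [mem_int_iff hA]
  have h1 : ε * (lam / t + mu / s) ≤ 1 / 2 := by
    have := mul_le_mul_of_nonneg_right hε0 hK.le
    refine this.trans (le_of_eq ?_)
    field_simp
  refine ⟨1 - ε * lam / t - ε * mu / s, ε * lam / t, ε * mu / s, ?_, by positivity, by positivity,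
    by ring, ?_⟩
  · have e : ε * (lam / t + mu / s) = ε * lam / t + ε * mu / s := by ring
    rw [e] at h1
    linarith
  · ext
    · simp only [Prod.fst_add, Prod.smul_fst, Prod.fst_sub, smul_eq_mul]
      field_simp
      ring
    · simp only [Prod.snd_add, Prod.smul_snd, Prod.snd_sub, smul_eq_mul]
      field_simp
      ring

lemma KeyB.unique (hF : IsFace (pp n) F) (hF' : IsFace (pp n) F') (h : KeyB n F v k l)
    (h' : KeyB n F' v k l) : F = F' := by
  obtain ⟨ε1, p1, h1⟩ := h.near one_pos one_pos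
  obtain ⟨ε2, p2, h2⟩ := h'.near one_pos one_pos
  exact face_eq hF hF' (h1 (min ε1 ε2) (lt_min p1 p2) (min_le_left _ _))
    (h2 (min ε1 ε2) (lt_min p1 p2) (min_le_right _ _))

lemma KeyB.no_dir (hF : IsFace (pp n) F) (h : KeyB n F v k l) {m : Fin n} (hmv : m ≠ v)
    {lam mu : ℝ} (hl : 0 < lam) (hm : 0 < mu)
    (he : pp n m - pp n v = lam • (pp n k - pp n v) + mu • (pp n l - pp n v)) : False := by
  obtain ⟨ε0, p0, h0⟩ := h.near hl hm
  have h1 := h0 (min ε0 1) (lt_min p0 one_pos) (min_le_left _ _)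
  refine face_sub hF h1 ?_
  have e : pp n v + ((min ε0 1 * lam) • (pp n k - pp n v) + (min ε0 1 * mu) • (pp n l - pp n v)) =
      pp n v + (min ε0 1) • (pp n m - pp n v) := by
    rw [he, smul_add, smul_smul, smul_smul]
  rw [e]
  unfold drawn
  simp only [mem_iUnion]
  refine ⟨v, m, hmv.symm, ?_⟩
  rw [segment_eq_image']
  exact ⟨min ε0 1, ⟨(lt_min p0 one_pos).le, min_le_right _ _⟩, rfl⟩

lemma dir_comb {m : Fin n} (hkl : k ≠ l) (hkv : k ≠ v) (hlv : l ≠ v) :
    pp n m - pp n v = (((X m - X v) / (X k - X v)) * ((X l - X m) / (X l - X k))) •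
      (pp n k - pp n v) + (((X m - X v) / (X l - X v)) * ((X m - X k) / (X l - X k))) •
      (pp n l - pp n v) := by
  have h1 : X l - X k ≠ 0 := fun h => hkl (Fin.ext (X_inj (by linarith)))
  have h2 : X k - X v ≠ 0 := fun h => hkv (Fin.ext (X_inj (by linarith)))
  have h3 : X l - X v ≠ 0 := fun h => hlv (Fin.ext (X_inj (by linarith)))
  ext
  · simp only [pp, P, Prod.fst_add, Prod.smul_fst, Prod.fst_sub, smul_eq_mul]
    field_simp
    ring
  · simp only [pp, P, Prod.snd_add, Prod.smul_snd, Prod.snd_sub, smul_eq_mul]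
    field_simp
    ring

lemma KeyB.adj (hF : IsFace (pp n) F) (h : KeyB n F v k l) (hkl : k < l) (hkv : k ≠ v)
    (hlv : l ≠ v) : (l : ℕ) = k + 1 ∨ ((k : ℕ) = 0 ∧ (l : ℕ) + 1 = n) := by
  have hXkl := X_lt_iff.2 hkl
  rcases lt_or_gt_of_ne hkv with hk | hk
  · rcases lt_or_gt_of_ne hlv with hl | hl
    · -- k < l < v
      left
      by_contra hne
      have hlt : (k : ℕ) + 1 < l := by
        have : (k : ℕ) < l := hkl
        omega
      set m : Fin n := ⟨k + 1, by omega⟩ with hm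
      have hm1 : k < m := Fin.lt_def.2 (by simp [hm])
      have hm2 : m < l := Fin.lt_def.2 (by simpa [hm] using hlt)
      have x1 := X_lt_iff.2 hm1
      have x2 := X_lt_iff.2 hm2
      have x3 := X_lt_iff.2 hl
      refine h.no_dir hF (m := m) (hm2.trans hl).ne ?_ ?_ (dir_comb hkl.ne hkv hlv)
      · exact mul_pos (div_pos_of_neg_of_neg (by linarith) (by linarith))
          (div_pos (by linarith) (by linarith))
      · exact mul_pos (div_pos_of_neg_of_neg (by linarith) (by linarith))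
          (div_pos (by linarith) (by linarith))
    · -- k < v < l
      right
      have x3 := X_lt_iff.2 hk
      have x4 := X_lt_iff.2 hl
      constructor
      · by_contra hne
        set m : Fin n := ⟨0, by omega⟩ with hm
        have hm1 : m < k := Fin.lt_def.2 (by simp [hm]; omega)
        have x1 := X_lt_iff.2 hm1
        refine h.no_dir hF (m := m) (hm1.trans hk).ne ?_ ?_ (dir_comb hkl.ne hkv hlv)
        · exact mul_pos (div_pos_of_neg_of_neg (by linarith) (by linarith))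
            (div_pos (by linarith) (by linarith))
        · exact mul_pos_of_neg_of_neg (div_neg_of_neg_of_pos (by linarith) (by linarith))
            (div_neg_of_neg_of_pos (by linarith) (by linarith))
      · by_contra hne
        set m : Fin n := ⟨l + 1, by omega⟩ with hm
        have hm1 : l < m := Fin.lt_def.2 (by simp [hm])
        have x1 := X_lt_iff.2 hm1
        refine h.no_dir hF (m := m) (hl.trans hm1).ne' ?_ ?_ (dir_comb hkl.ne hkv hlv)
        · exact mul_pos_of_neg_of_neg (div_neg_of_pos_of_neg (by linarith) (by linarith))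
            (div_neg_of_neg_of_pos (by linarith) (by linarith))
        · exact mul_pos (div_pos (by linarith) (by linarith))
            (div_pos (by linarith) (by linarith))
  · -- v < k < l
    left
    by_contra hne
    have hlt : (k : ℕ) + 1 < l := by
      have : (k : ℕ) < l := hkl
      omega
    set m : Fin n := ⟨k + 1, by omega⟩ with hm
    have hm1 : k < m := Fin.lt_def.2 (by simp [hm])
    have hm2 : m < l := Fin.lt_def.2 (by simpa [hm] using hlt)
    have x1 := X_lt_iff.2 hm1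
    have x2 := X_lt_iff.2 hm2
    have x3 := X_lt_iff.2 hk
    refine h.no_dir hF (m := m) (hk.trans hm1).ne' ?_ ?_ (dir_comb hkl.ne hkv hlv)
    · exact mul_pos (div_pos (by linarith) (by linarith)) (div_pos (by linarith) (by linarith))
    · exact mul_pos (div_pos (by linarith) (by linarith)) (div_pos (by linarith) (by linarith))

lemma L_symm (u w : ℝ) (q : ℝ × ℝ) : L u w q = L w u q := by unfold L; ring

lemma L_vertex (u : ℝ) (v : Fin n) : L (X v) u (pp n v) = 0 := by simp only [L, pp, P]; ring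

/-- an edge through the vertex `v` -/
lemma edge_at {e : Fin n × Fin n} (he : e.1 < e.2) (hs : segment ℝ a b ⊆ segment ℝ (pp n e.1)
    (pp n e.2)) (ha : a = pp n v) (hab : a ≠ b) :
    ∃ k, k ≠ v ∧ ∃ t : ℝ, 0 < t ∧ t ≤ 1 ∧ b = pp n v + t • (pp n k - pp n v) := by
  have h1 : pp n v ∈ segment ℝ (pp n e.1) (pp n e.2) := by
    rw [← ha]; exact hs (left_mem_segment ℝ a b)
  have h2 := hs (right_mem_segment ℝ a b)
  rcases vertex_mem he h1 with h | h
  · refine ⟨e.2, by rw [h]; exact he.ne', ?_⟩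
    rw [← h, segment_eq_image'] at h2
    obtain ⟨t, ht, he⟩ := h2
    refine ⟨t, lt_of_le_of_ne ht.1 ?_, ht.2, he.symm⟩
    rintro rfl
    apply hab
    rw [← he, ha]; simp
  · refine ⟨e.1, by rw [h]; exact he.ne, ?_⟩
    rw [← h, segment_symm, segment_eq_image'] at h2
    obtain ⟨t, ht, he⟩ := h2
    refine ⟨t, lt_of_le_of_ne ht.1 ?_, ht.2, he.symm⟩
    rintro rfl
    apply hab
    rw [← he, ha]; simp

lemma corner_key (h : AffineIndependent ℝ ![a, b, c])
    (hF : IsFace (pp n) (interior (convexHull ℝ {a, b, c}))) (ha : a = pp n v) :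
    ∃ k l, k ≠ v ∧ l ≠ v ∧ k ≠ l ∧ KeyB n (interior (convexHull ℝ {a, b, c})) v k l ∧
      (∃ t : ℝ, 0 < t ∧ t ≤ 1 ∧ b = pp n v + t • (pp n k - pp n v)) := by
  obtain ⟨e2, l2, s2⟩ := side_exists (aff_swap (aff_rot h)) (by
    rw [set_swap, set_rot]; exact hF)
  obtain ⟨e3, l3, s3⟩ := side_exists (aff_rot (aff_rot h)) (by
    rw [set_rot, set_rot]; exact hF)
  obtain ⟨hab, hbc, hac⟩ := pt_ne h
  obtain ⟨k, hkv, t, ht, ht1, hb⟩ := edge_at l3 s3 ha hab
  obtain ⟨l, hlv, s, hs, hs1, hc⟩ := edge_at l2 s2 ha hac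
  refine ⟨k, l, hkv, hlv, ?_, ?_, t, ht, ht1, hb⟩
  · rintro rfl
    have z1 : L (X v) (X k) (pp n v) = 0 := L_vertex _ _
    have z2 : L (X v) (X k) (pp n k) = 0 := by rw [L_symm]; exact L_vertex _ _
    refine not_on_line h (u := X v) (w := X k) ?_ ?_ ?_
    · rw [ha]; exact z1
    · rw [hb, L_comb, z1, z2]; ring
    · rw [hc, L_comb, z1, z2]; ring
  · subst ha hb hc
    exact ⟨t, s, ht, ht1, hs, hs1, h, rfl⟩

lemma vertex_mem' {i j : Fin n} (hij : i ≠ j) (hv : pp n v ∈ segment ℝ (pp n i) (pp n j)) :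
    v = i ∨ v = j := by
  rcases lt_or_gt_of_ne hij with h | h
  · exact vertex_mem h hv
  · rw [segment_symm] at hv
    exact (vertex_mem h hv).symm

lemma mem_seg_of {i j : Fin n} {t : ℝ} (ht : 0 < t) (ht1 : t ≤ 1) :
    pp n i + t • (pp n j - pp n i) ∈ segment ℝ (pp n i) (pp n j) := by
  rw [segment_eq_image']
  exact ⟨t, ⟨ht.le, ht1⟩, rfl⟩

/-- a triangular face at the vertex `v` along the hull edge from `v` to `l` has a corner at `l` -/
lemma hull_corner (hF : IsFace (pp n) F) (h : KeyB n F v k l) (hlv : l ≠ v) {g i : Fin n}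
    (hgi : g < i) (hull : (i : ℕ) = g + 1 ∨ ((g : ℕ) = 0 ∧ (i : ℕ) + 1 = n))
    (hset : (g = v ∧ i = l) ∨ (g = l ∧ i = v)) :
    ∃ m, m ≠ l ∧ m ≠ v ∧ KeyB n F l v m := by
  obtain ⟨t, s, ht, ht1, hs, hs1, hA, rfl⟩ := h
  obtain ⟨hab, hbc, hac⟩ := pt_ne hA
  obtain ⟨e, le, se⟩ := side_exists hA hF
  have hc1 := se (right_mem_segment ℝ _ _)
  have hb1 := se (left_mem_segment ℝ _ _)
  have hc2 : pp n v + s • (pp n l - pp n v) ∈ segment ℝ (pp n g) (pp n i) := by
    rcases hset with ⟨rfl, rfl⟩ | ⟨rfl, rfl⟩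
    · exact mem_seg_of hs hs1
    · rw [segment_symm]; exact mem_seg_of hs hs1
  have hav : L (X g) (X i) (pp n v) = 0 := by
    rcases hset with ⟨rfl, rfl⟩ | ⟨rfl, rfl⟩
    · exact L_vertex _ _
    · rw [L_symm]; exact L_vertex _ _
  have hex : ∃ w, pp n v + s • (pp n l - pp n v) = pp n w := by
    by_contra hcon
    push Not at hcon
    rcases lt_trichotomy e.1 g with h1 | h1 | h1
    · obtain ⟨h2, h3⟩ := interleave le hgi h1 hc1 hc2 hcon
      have r1 : (e.1 : ℕ) < g := h1
      have r2 : (g : ℕ) < e.2 := h2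
      have r3 : (e.2 : ℕ) < i := h3
      omega
    · have q1 := (mem_chord le _).1 hc1
      have q2 := (mem_chord hgi _).1 hc2
      have q3 := (mem_chord le _).1 hb1
      have z1 : L (X g) (X i) (pp n g) = 0 := L_vertex _ _
      have z2 : L (X e.1) (X e.2) (pp n g) = 0 := by rw [h1]; exact L_vertex _ _
      obtain ⟨-, h2⟩ := line_unique le hgi (hcon g) q1.2.2 z2 q2.2.2 z1
      rw [h1, h2] at q1 q3
      exact not_on_line hA hav q3.2.2 q1.2.2
    · obtain ⟨h2, h3⟩ := interleave hgi le h1 hc2 hc1 hcon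
      have r1 : (g : ℕ) < e.1 := h1
      have r2 : (e.1 : ℕ) < i := h2
      have r3 : (i : ℕ) < e.2 := h3
      have r4 : (e.2 : ℕ) < n := e.2.2
      omega
  obtain ⟨w, hw⟩ := hex
  have hwl : w = l := by
    have h1 : pp n w ∈ segment ℝ (pp n v) (pp n l) := by rw [← hw]; exact mem_seg_of hs hs1
    rcases vertex_mem' hlv.symm h1 with h2 | h2
    · exfalso
      apply hac
      rw [hw, h2]
    · exact h2
  rw [hwl] at hw
  have hA' := aff_rot (aff_rot hA)
  have hset3 : ({pp n v, pp n v + t • (pp n k - pp n v), pp n v + s • (pp n l - pp n v)} :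
      Set (ℝ × ℝ)) = {pp n v + s • (pp n l - pp n v), pp n v, pp n v + t • (pp n k - pp n v)} := by
    ext x; simp only [mem_insert_iff, mem_singleton_iff]; tauto
  rw [hset3] at hF ⊢
  obtain ⟨k', l', hk', hl', hkl', hK, t', ht', ht1', he'⟩ := corner_key (v := l) hA' hF hw
  have hkv : k' = v := by
    have h1 : pp n v ∈ segment ℝ (pp n l) (pp n k') := by
      rw [he']; exact mem_seg_of ht' ht1'
    rcases vertex_mem' hk'.symm h1 with h2 | h2
    · exact absurd h2.symm hlv
    · exact h2.symm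
  subst hkv
  exact ⟨l', hl', hkl'.symm, hK⟩

lemma val_succ [NeZero n] (hn : 2 ≤ n) (k : Fin n) :
    ((k + 1 : Fin n) : ℕ) = if (k : ℕ) + 1 = n then 0 else (k : ℕ) + 1 := by
  rw [Fin.val_add, Fin.val_one', Nat.mod_eq_of_lt (show 1 < n by omega)]
  have := k.2
  split_ifs with h
  · rw [h, Nat.mod_self]
  · exact Nat.mod_eq_of_lt (by omega)

lemma aux1 [NeZero n] (hn : 4 ≤ n) (k : Fin n) : k + 1 + 1 + 1 ≠ k + 1 := by
  intro h
  have h1 := congrArg Fin.val h
  have h2 := k.2
  simp only [val_succ (show 2 ≤ n by omega)] at h1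
  clear h
  generalize (k : ℕ) = x at h1 h2
  split_ifs at h1 <;> omega

lemma aux2 [NeZero n] (hn : 4 ≤ n) (k : Fin n) : k + 1 + 1 + 1 + 1 ≠ k + 1 := by
  intro h
  have h1 := congrArg Fin.val h
  have h2 := k.2
  simp only [val_succ (show 2 ≤ n by omega)] at h1
  clear h
  generalize (k : ℕ) = x at h1 h2
  split_ifs at h1 <;> omega

lemma KeyB.cyc [NeZero n] (hn : 2 ≤ n) (hF : IsFace (pp n) F) (h : KeyB n F v k l)
    (hkv : k ≠ v) (hlv : l ≠ v) (hkl : k ≠ l) : l = k + 1 ∨ k = l + 1 := by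
  have hk2 := k.2
  have hl2 := l.2
  rcases lt_or_gt_of_ne hkl with h1 | h1
  · rcases h.adj hF h1 hkv hlv with h2 | ⟨h2, h3⟩
    · left
      rw [Fin.ext_iff, val_succ hn]
      split_ifs <;> omega
    · right
      rw [Fin.ext_iff, val_succ hn]
      split_ifs <;> omega
  · rcases h.symm.adj hF h1 hlv hkv with h2 | ⟨h2, h3⟩
    · right
      rw [Fin.ext_iff, val_succ hn]
      split_ifs <;> omega
    · left
      rw [Fin.ext_iff, val_succ hn]
      split_ifs <;> omega

/-- every triangular face with a corner at a vertex has a key in the normal form -/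
lemma corner_norm [NeZero n] (hn : 4 ≤ n) (h : AffineIndependent ℝ ![a, b, c])
    (hF : IsFace (pp n) (interior (convexHull ℝ {a, b, c}))) (ha : a = pp n v) :
    ∃ v k, KeyB n (interior (convexHull ℝ {a, b, c})) v k (k + 1) ∧ k ≠ v ∧ k + 1 ≠ v ∧
      k + 1 + 1 ≠ v := by
  obtain ⟨k, l, hkv, hlv, hkl, hK, -⟩ := corner_key h hF ha
  obtain ⟨k, hK, hkv, hlv⟩ : ∃ k, KeyB n (interior (convexHull ℝ {a, b, c})) v k (k + 1) ∧
      k ≠ v ∧ k + 1 ≠ v := by
    rcases hK.cyc (by omega) hF hkv hlv hkl with h1 | h1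
    · subst h1; exact ⟨k, hK, hkv, hlv⟩
    · subst h1; exact ⟨l, hK.symm, hlv, hkv⟩
  by_cases hv : k + 1 + 1 = v
  · obtain ⟨m, hml, hmv, hM⟩ : ∃ m, m ≠ k + 1 ∧ m ≠ v ∧
        KeyB n (interior (convexHull ℝ {a, b, c})) (k + 1) v m := by
      have h1 := val_succ (by omega) (k + 1)
      rw [hv] at h1
      have h2 := (k + 1).2
      have h3 := v.2
      by_cases h4 : ((k + 1 : Fin n) : ℕ) + 1 = n
      · rw [if_pos h4] at h1
        exact hull_corner hF hK hlv (g := v) (i := k + 1) (Fin.lt_def.2 (by omega))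
          (Or.inr ⟨h1, h4⟩) (Or.inl ⟨rfl, rfl⟩)
      · rw [if_neg h4] at h1
        exact hull_corner hF hK hlv (g := k + 1) (i := v) (Fin.lt_def.2 (by omega))
          (Or.inl h1) (Or.inr ⟨rfl, rfl⟩)
    have hmv2 : m = v + 1 := by
      rcases hM.cyc (by omega) hF hlv.symm hml hmv.symm with h1 | h1
      · exact h1
      · exfalso
        apply hml
        rw [← hv] at h1
        exact (add_right_cancel h1).symm
    rw [hmv2] at hM
    refine ⟨k + 1, v, hM, hlv.symm, ?_, ?_⟩
    · rw [← hv]; exact aux1 hn k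
    · rw [← hv]; exact aux2 hn k
  · exact ⟨v, k, hK, hkv, hlv, hv⟩

end Pool.Agent.K9h55.CD
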