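import Mathlib

/-!
# Convex drawings of `K_n`, their faces, triangular faces
-/

set_option autoImplicit false

open Set

namespace Pool.Agent.K9h55.CD

/-- The union of the edges of the straight line drawing of the complete graph with the vertices
`p i`: the union of the segments between different vertices. -/
def drawn {n : ℕ} (p : Fin n → ℝ × ℝ) : Set (ℝ × ℝ) :=
  ⋃ (i : Fin n) (j : Fin n) (_ : i ≠ j), segment ℝ (p i) (p j)

/-- `F` is a bounded face of the drawing: a bounded connected component of the complement of the
union of the edges. -/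
def IsFace {n : ℕ} (p : Fin n → ℝ × ℝ) (F : Set (ℝ × ℝ)) : Prop :=
  Bornology.IsBounded F ∧ ∃ x ∈ (drawn p)ᶜ, F = connectedComponentIn (drawn p)ᶜ x

/-- `F` is an open triangle: the interior of the convex hull of three points which are not
collinear. -/
def IsTriangle (F : Set (ℝ × ℝ)) : Prop :=
  ∃ a b c : ℝ × ℝ, AffineIndependent ℝ ![a, b, c] ∧ F = interior (convexHull ℝ {a, b, c})

/-- The set of the triangular faces (3-faces) of the drawing. -/
def triFaces {n : ℕ} (p : Fin n → ℝ × ℝ) : Set (Set (ℝ × ℝ)) :=
  {F | IsFace p F ∧ IsTriangle F}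

/-- The drawing is generic: a point which is not a vertex is on at most two edges. -/
def Generic {n : ℕ} (p : Fin n → ℝ × ℝ) : Prop :=
  ∀ x, x ∉ Set.range p →
    {e : Fin n × Fin n | e.1 < e.2 ∧ x ∈ segment ℝ (p e.1) (p e.2)}.ncard ≤ 2

end Pool.Agent.K9h55.CD
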