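import Pool.Agent.K9h55.CD.CaseA
import Pool.Agent.K9h55.CD.CaseB

set_option autoImplicit false

open Set Topology

namespace Pool.Agent.K9h55.CD

variable {n : ℕ}

/-- three interleaved edges are not concurrent -/
lemma no_three {e1 e2 e3 : Fin n × Fin n} (l1 : e1.1 < e1.2) (l2 : e2.1 < e2.2)
    (l3 : e3.1 < e3.2) (h12 : e1.1 < e2.1) (h23 : e2.1 < e3.1) {x : ℝ × ℝ}
    (hx : ∀ v, x ≠ pp n v) (m1 : x ∈ segment ℝ (pp n e1.1) (pp n e1.2))
    (m2 : x ∈ segment ℝ (pp n e2.1) (pp n e2.2)) (m3 : x ∈ segment ℝ (pp n e3.1) (pp n e3.2)) :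
    False := by
  obtain ⟨i21, i22⟩ := interleave l1 l2 h12 m1 m2 hx
  obtain ⟨i31, i32⟩ := interleave l1 l3 (h12.trans h23) m1 m3 hx
  have hkey := key_ineq h12 h23 i31 i22
  have q1 := (mem_chord l1 _).1 m1
  have q2 := (mem_chord l2 _).1 m2
  have q3 := (mem_chord l3 _).1 m3
  have f12 := X_lt_iff.2 h12
  have fB := X_lt_iff.2 i22
  have e : (X e2.1 + X e2.2 - X e1.1 - X e1.2) * x.1 = X e2.1 * X e2.2 - X e1.1 * X e1.2 := by
    have h1 := q1.2.2
    have h2 := q2.2.2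
    unfold L at h1 h2
    linarith
  have := mul_le_mul_of_nonneg_left q3.1
    (show 0 ≤ X e2.1 + X e2.2 - X e1.1 - X e1.2 by linarith)
  linarith

lemma generic_pp (n : ℕ) : Generic (pp n) := by
  intro x hx
  have hx' : ∀ v, x ≠ pp n v := fun v h => hx ⟨v, h.symm⟩
  by_contra hcon
  push Not at hcon
  rw [Set.two_lt_ncard_iff (Set.toFinite _)] at hcon
  obtain ⟨e1, e2, e3, ⟨l1, m1⟩, ⟨l2, m2⟩, ⟨l3, m3⟩, n12, n13, n23⟩ := hcon
  have hdiff : ∀ e f : Fin n × Fin n, e.1 < e.2 → f.1 < f.2 →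
      x ∈ segment ℝ (pp n e.1) (pp n e.2) → x ∈ segment ℝ (pp n f.1) (pp n f.2) → e ≠ f →
      e.1 ≠ f.1 := by
    intro e f le lf me mf hne h0
    have q1 := (mem_chord le _).1 me
    have q2 := (mem_chord lf _).1 mf
    have z1 : L (X e.1) (X e.2) (pp n e.1) = 0 := L_vertex _ _
    have z2 : L (X f.1) (X f.2) (pp n e.1) = 0 := by rw [h0]; exact L_vertex _ _
    obtain ⟨-, h2⟩ := line_unique le lf (hx' e.1) q1.2.2 z1 q2.2.2 z2
    exact hne (Prod.ext h0 h2)
  have d12 := hdiff e1 e2 l1 l2 m1 m2 n12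
  have d13 := hdiff e1 e3 l1 l3 m1 m3 n13
  have d23 := hdiff e2 e3 l2 l3 m2 m3 n23
  rcases lt_or_gt_of_ne d12 with a | a <;> rcases lt_or_gt_of_ne d13 with b | b <;>
    rcases lt_or_gt_of_ne d23 with c | c
  · exact no_three l1 l2 l3 a c hx' m1 m2 m3
  · exact no_three l1 l3 l2 b c hx' m1 m3 m2
  · exact absurd (a.trans c) b.not_gt
  · exact no_three l3 l1 l2 b a hx' m3 m1 m2
  · exact no_three l2 l1 l3 a b hx' m2 m1 m3
  · exact absurd (b.trans c) a.not_gt
  · exact no_three l2 l3 l1 c b hx' m2 m3 m1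
  · exact no_three l3 l2 l1 c a hx' m3 m2 m1

/-- the two types of triangular faces -/
lemma tri_cases [NeZero n] (hn : 4 ≤ n) {F : Set (ℝ × ℝ)} (hF : F ∈ triFaces (pp n)) :
    (∃ v k, KeyB n F v k (k + 1) ∧ k ≠ v ∧ k + 1 ≠ v ∧ k + 1 + 1 ≠ v) ∨ ∃ s t, KeyA n F s t := by
  obtain ⟨hF, a, b, c, h, rfl⟩ := hF
  by_cases ha : ∃ v, a = pp n v
  · obtain ⟨v, ha⟩ := ha
    left
    exact corner_norm hn h hF ha
  by_cases hb : ∃ v, b = pp n v
  · obtain ⟨v, hb⟩ := hb
    left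
    rw [s_bca a b c] at hF ⊢
    exact corner_norm hn (aff_rot h) hF hb
  by_cases hc : ∃ v, c = pp n v
  · obtain ⟨v, hc⟩ := hc
    left
    rw [s_cab a b c] at hF ⊢
    exact corner_norm hn (aff_rot (aff_rot h)) hF hc
  right
  push Not at ha hb hc
  obtain ⟨e1, l1, s1⟩ := side_exists h hF
  obtain ⟨e2, l2, s2⟩ := side_exists (aff_swap (aff_rot h)) (by
    rw [set_swap, set_rot]; exact hF)
  obtain ⟨e3, l3, s3⟩ := side_exists (aff_rot (aff_rot h)) (by
    rw [set_rot, set_rot]; exact hF)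
  exact Tri.exists_key (e1 := e1) (e2 := e2) (e3 := e3) ⟨h, hF, l1, l2, l3, s1, s2, s3, ha, hb, hc⟩

lemma count_union {α β : Type*} (I : Finset α) (Φ : α → Set β)
    (hΦ : ∀ x ∈ I, (Φ x).Subsingleton) :
    (⋃ x ∈ I, Φ x).Finite ∧ (⋃ x ∈ I, Φ x).ncard ≤ I.card := by
  classical
  induction I using Finset.induction_on with
  | empty => simp
  | insert a s ha ih =>
    obtain ⟨h1, h2⟩ := ih (fun x hx => hΦ x (Finset.mem_insert_of_mem hx))
    have h3 := hΦ a (Finset.mem_insert_self a s)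
    rw [Finset.set_biUnion_insert, Finset.card_insert_of_notMem ha]
    refine ⟨h3.finite.union h1, ?_⟩
    have h4 : (Φ a).ncard ≤ 1 := by
      rw [Set.ncard_le_one h3.finite]
      exact fun x hx y hy => h3 hx hy
    have := Set.ncard_union_le (Φ a) (⋃ x ∈ s, Φ x)
    omega

lemma card_ok [NeZero n] (hn : 4 ≤ n) (v : Fin n) :
    (Finset.univ.filter fun k : Fin n => k ≠ v ∧ k + 1 ≠ v ∧ k + 1 + 1 ≠ v).card ≤ n - 3 := by
  classical
  have h1 : (Finset.univ.filter fun k : Fin n => k ≠ v ∧ k + 1 ≠ v ∧ k + 1 + 1 ≠ v) ⊆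
      Finset.univ \ {v, v - 1, v - 1 - 1} := by
    intro k hk
    simp only [Finset.mem_filter, Finset.mem_univ, true_and] at hk
    simp only [Finset.mem_sdiff, Finset.mem_univ, true_and, Finset.mem_insert,
      Finset.mem_singleton]
    rintro (h | h | h)
    · exact hk.1 h
    · apply hk.2.1; rw [h]; simp
    · apply hk.2.2; rw [h]; simp
  refine (Finset.card_le_card h1).trans ?_
  have h3 : ({v, v - 1, v - 1 - 1} : Finset (Fin n)).card = 3 := by
    have q1 : ∀ k : Fin n, k + 1 ≠ k := by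
      intro k h
      have h1 := congrArg Fin.val h
      have h2 := k.2
      simp only [val_succ (show 2 ≤ n by omega)] at h1
      clear h
      generalize (k : ℕ) = x at h1 h2
      split_ifs at h1 <;> omega
    have q2 : ∀ k : Fin n, k + 1 + 1 ≠ k := by
      intro k h
      have h1 := congrArg Fin.val h
      have h2 := k.2
      simp only [val_succ (show 2 ≤ n by omega)] at h1
      clear h
      generalize (k : ℕ) = x at h1 h2
      split_ifs at h1 <;> omega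
    rw [Finset.card_eq_three]
    refine ⟨v, v - 1, v - 1 - 1, ?_, ?_, ?_, rfl⟩
    · intro h
      apply q1 (v - 1)
      rw [sub_add_cancel]; exact h
    · intro h
      apply q2 (v - 1 - 1)
      rw [sub_add_cancel, sub_add_cancel]; exact h
    · intro h
      apply q1 (v - 1 - 1)
      rw [sub_add_cancel]; exact h
  have h4 := Finset.card_sdiff_add_card_eq_card (Finset.subset_univ
    ({v, v - 1, v - 1 - 1} : Finset (Fin n)))
  rw [h3, Finset.card_univ, Fintype.card_fin] at h4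
  omega

theorem main (n : ℕ) (hn : 4 ≤ n) :
    (triFaces (pp n)).Finite ∧ (triFaces (pp n)).ncard ≤ n * (n - 3) + (n - 4).choose 2 := by
  classical
  have : NeZero n := ⟨by omega⟩
  set I : Finset ((_ : Fin n) × Fin n) := Finset.univ.sigma fun v =>
    Finset.univ.filter fun k : Fin n => k ≠ v ∧ k + 1 ≠ v ∧ k + 1 + 1 ≠ v with hI
  set J : Finset ((_ : ℕ) × ℕ) := (Finset.range (n - 4)).sigma fun w => Finset.range w with hJ
  have cI : I.card ≤ n * (n - 3) := by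
    rw [hI, Finset.card_sigma]
    refine (Finset.sum_le_sum fun v _ => card_ok hn v).trans ?_
    simp
  have cJ : J.card = (n - 4).choose 2 := by
    rw [hJ, Finset.card_sigma]
    simp only [Finset.card_range]
    rw [Finset.sum_range_id, Nat.choose_two_right]
  set Φ : ((_ : Fin n) × Fin n) → Set (Set (ℝ × ℝ)) :=
    fun x => {F | IsFace (pp n) F ∧ KeyB n F x.1 x.2 (x.2 + 1)} with hΦ
  set Ψ : ((_ : ℕ) × ℕ) → Set (Set (ℝ × ℝ)) :=
    fun y => {F | KeyA n F (y.2 + 1) (y.1 + 2)} with hΨ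
  obtain ⟨u1, u2⟩ := count_union I Φ (fun x _ F hF F' hF' => hF.2.unique hF.1 hF'.1 hF'.2)
  obtain ⟨v1, v2⟩ := count_union J Ψ (fun x _ F hF F' hF' => KeyA.unique hF hF')
  have hsub : triFaces (pp n) ⊆ (⋃ x ∈ I, Φ x) ∪ ⋃ y ∈ J, Ψ y := by
    intro F hF
    rcases tri_cases hn hF with ⟨v, k, h1, h2, h3, h4⟩ | ⟨s, t, h1⟩
    · left
      have hm : (⟨v, k⟩ : (_ : Fin n) × Fin n) ∈ I := by
        rw [hI, Finset.mem_sigma]
        exact ⟨Finset.mem_univ _, Finset.mem_filter.2 ⟨Finset.mem_univ _, h2, h3, h4⟩⟩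
      have hp : F ∈ Φ ⟨v, k⟩ := ⟨hF.1, h1⟩
      exact mem_iUnion₂.2 ⟨⟨v, k⟩, hm, hp⟩
    · right
      obtain ⟨r1, r2, r3⟩ := h1.range
      have hm : (⟨t - 2, s - 1⟩ : (_ : ℕ) × ℕ) ∈ J := by
        rw [hJ, Finset.mem_sigma]
        exact ⟨Finset.mem_range.2 (show t - 2 < n - 4 by omega),
          Finset.mem_range.2 (show s - 1 < t - 2 by omega)⟩
      have e1 : s - 1 + 1 = s := by omega
      have e2 : t - 2 + 2 = t := by omega
      have hp : F ∈ Ψ ⟨t - 2, s - 1⟩ := by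
        show KeyA n F (s - 1 + 1) (t - 2 + 2)
        rw [e1, e2]; exact h1
      exact mem_iUnion₂.2 ⟨⟨t - 2, s - 1⟩, hm, hp⟩
  refine ⟨(u1.union v1).subset hsub, ?_⟩
  have h1 := Set.ncard_le_ncard hsub (u1.union v1)
  have h2 := Set.ncard_union_le (⋃ x ∈ I, Φ x) (⋃ y ∈ J, Ψ y)
  omega

end Pool.Agent.K9h55.CD
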