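import Pool.Agent.K9h55.CD.Defs

set_option autoImplicit false

open Set

namespace Pool.Agent.K9h55.CD

/-- abscissae -/
noncomputable def X (i : ℕ) : ℝ := 4 ^ i

lemma X_pos (i : ℕ) : 0 < X i := by unfold X; positivity

lemma X_four {i j : ℕ} (h : i < j) : 4 * X i ≤ X j := by
  unfold X
  calc (4 : ℝ) * 4 ^ i = 4 ^ (i + 1) := by ring
    _ ≤ 4 ^ j := pow_le_pow_right₀ (by norm_num) h

lemma X_lt_iff {i j : ℕ} : X i < X j ↔ i < j := by
  unfold X
  exact pow_lt_pow_iff_right₀ (by norm_num)

lemma X_le_iff {i j : ℕ} : X i ≤ X j ↔ i ≤ j := by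
  unfold X
  exact pow_le_pow_iff_right₀ (by norm_num)

lemma X_inj {i j : ℕ} (h : X i = X j) : i = j :=
  le_antisymm (X_le_iff.1 h.le) (X_le_iff.1 h.ge)

/-- point of the parabola -/
def P (u : ℝ) : ℝ × ℝ := (u, u ^ 2)

/-- the equation of the line through two points of the parabola -/
def L (u w : ℝ) (q : ℝ × ℝ) : ℝ := q.2 - (u + w) * q.1 + u * w

lemma mem_seg {u w : ℝ} (h : u < w) (q : ℝ × ℝ) :
    q ∈ segment ℝ (P u) (P w) ↔ u ≤ q.1 ∧ q.1 ≤ w ∧ L u w q = 0 := by
  constructor
  · rintro ⟨α, β, hα, hβ, hs, rfl⟩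
    have e : α = 1 - β := by linarith
    subst e
    simp only [P, L, Prod.smul_mk, Prod.mk_add_mk, smul_eq_mul]
    refine ⟨by nlinarith, by nlinarith, by ring⟩
  · rintro ⟨h1, h2, h3⟩
    have hw : (0 : ℝ) < w - u := by linarith
    refine ⟨(w - q.1) / (w - u), (q.1 - u) / (w - u), div_nonneg (by linarith) hw.le,
      div_nonneg (by linarith) hw.le, by field_simp; ring, ?_⟩
    unfold L at h3
    ext
    · simp only [P, Prod.smul_mk, Prod.mk_add_mk, smul_eq_mul]
      field_simp
      ring
    · simp only [P, Prod.smul_mk, Prod.mk_add_mk, smul_eq_mul]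
      have : q.2 = (u + w) * q.1 - u * w := by linarith
      rw [this]
      field_simp
      ring

/-- the drawing -/
noncomputable def pp (n : ℕ) (i : Fin n) : ℝ × ℝ := P (X i)

lemma pp_inj {n : ℕ} {i j : Fin n} (h : pp n i = pp n j) : i = j := by
  have : X i = X j := congrArg Prod.fst h
  exact Fin.ext (X_inj this)

lemma convexIndependent_pp (n : ℕ) : ConvexIndependent ℝ (pp n) := by
  rw [convexIndependent_iff_notMem_convexHull_diff]
  intro i s hi
  have hconv : Convex ℝ {q : ℝ × ℝ | 0 < q.2 - 2 * X i * q.1 + X i ^ 2} := by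
    intro a ha b hb α β hα hβ hs
    simp only [mem_setOf_eq, Prod.snd_add, Prod.smul_snd, Prod.fst_add, Prod.smul_fst, smul_eq_mul] at *
    have e : α = 1 - β := by linarith
    subst e
    rcases hα.eq_or_lt with h0 | h0
    · have : β = 1 := by linarith
      subst this
      nlinarith
    · nlinarith [mul_pos h0 ha, mul_nonneg hβ hb.le]
  have hsub : pp n '' (s \ {i}) ⊆ {q : ℝ × ℝ | 0 < q.2 - 2 * X i * q.1 + X i ^ 2} := by
    rintro _ ⟨j, ⟨_, hj⟩, rfl⟩
    simp only [mem_setOf_eq, pp, P]
    have hne : X j - X i ≠ 0 := by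
      intro h0
      exact hj (Fin.ext (X_inj (by linarith)))
    have := sq_pos_of_ne_zero hne
    nlinarith
  have := convexHull_min hsub hconv hi
  simp only [mem_setOf_eq, pp, P] at this
  nlinarith

lemma mem_drawn {n : ℕ} (q : ℝ × ℝ) :
    q ∈ drawn (pp n) ↔ ∃ i j : Fin n, i < j ∧ q ∈ segment ℝ (pp n i) (pp n j) := by
  unfold drawn
  simp only [mem_iUnion]
  constructor
  · rintro ⟨i, j, hij, hq⟩
    rcases lt_or_gt_of_ne hij with h | h
    · exact ⟨i, j, h, hq⟩
    · exact ⟨j, i, h, by rw [segment_symm]; exact hq⟩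
  · rintro ⟨i, j, hij, hq⟩
    exact ⟨i, j, hij.ne, hq⟩

lemma mem_chord {n : ℕ} {i j : Fin n} (h : i < j) (q : ℝ × ℝ) :
    q ∈ segment ℝ (pp n i) (pp n j) ↔ X i ≤ q.1 ∧ q.1 ≤ X j ∧ L (X i) (X j) q = 0 :=
  mem_seg (X_lt_iff.2 h) q

/-- a vertex on a chord is an end of it -/
lemma vertex_mem {n : ℕ} {i j v : Fin n} (h : i < j)
    (hv : pp n v ∈ segment ℝ (pp n i) (pp n j)) : v = i ∨ v = j := by
  rw [mem_chord h] at hv
  obtain ⟨_, _, h3⟩ := hv
  have : (X v - X i) * (X v - X j) = 0 := by
    unfold L pp P at h3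
    simp only at h3
    linarith
  rcases mul_eq_zero.1 this with h0 | h0
  · left; exact Fin.ext (X_inj (by linarith))
  · right; exact Fin.ext (X_inj (by linarith))

/-- two chords with a common point which is not a vertex are interleaved -/
lemma interleave {n : ℕ} {i j k l : Fin n} (hij : i < j) (hkl : k < l) (hik : i < k) {q : ℝ × ℝ}
    (h1 : q ∈ segment ℝ (pp n i) (pp n j)) (h2 : q ∈ segment ℝ (pp n k) (pp n l))
    (hq : ∀ v, q ≠ pp n v) : k < j ∧ j < l := by
  have h1' := h1
  have h2' := h2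
  rw [mem_chord hij] at h1
  rw [mem_chord hkl] at h2
  obtain ⟨a1, a2, a3⟩ := h1
  obtain ⟨b1, b2, b3⟩ := h2
  unfold L at a3 b3
  have hXik := X_lt_iff.2 hik
  have hXij := X_lt_iff.2 hij
  have hXkl := X_lt_iff.2 hkl
  have hle : X k ≤ X j := b1.trans a2
  have hkj : k ≤ j := X_le_iff.1 hle
  have hkj' : k < j := by
    rcases hkj.eq_or_lt with h0 | h0
    · exfalso
      subst h0
      have e1 : q.1 = X k := le_antisymm a2 b1
      apply hq k
      ext
      · exact e1
      · simp only [pp, P]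
        rw [e1] at b3
        linarith
    · exact h0
  refine ⟨hkj', ?_⟩
  have hXkj := X_lt_iff.2 hkj'
  by_contra hjl
  push Not at hjl
  have hXlj : X l ≤ X j := X_le_iff.2 hjl
  -- L_{ij} on the chord kl is < 0 except at l = j
  rcases hXlj.eq_or_lt with h0 | h0
  · -- l = j : different slopes
    have : (X k - X i) * (q.1 - X j) = 0 := by
      rw [h0] at b3
      nlinarith
    rcases mul_eq_zero.1 this with h4 | h4
    · linarith
    · apply hq j
      have e1 : q.1 = X j := by linarith
      ext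
      · exact e1
      · simp only [pp, P]
        rw [e1] at a3
        linarith
  · -- nested
    have e : (X k + X l - X i - X j) * q.1 = X k * X l - X i * X j := by linarith
    -- affine in q.1, negative at both ends
    have f1 : (X k - X i) * (X j - X k) > 0 := mul_pos (by linarith) (by linarith)
    have f2 : (X l - X i) * (X j - X l) > 0 := mul_pos (by linarith) (by linarith)
    have g1 : (X l - q.1) * ((X k - X i) * (X j - X k)) ≥ 0 := mul_nonneg (by linarith) f1.le
    have g2 : (q.1 - X k) * ((X l - X i) * (X j - X l)) ≥ 0 := mul_nonneg (by linarith) f2.le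
    have key : (X l - q.1) * ((X k - X i) * (X j - X k)) + (q.1 - X k) * ((X l - X i) * (X j - X l))
        = 0 := by
      have : (X l - q.1) * ((X k - X i) * (X j - X k)) + (q.1 - X k) * ((X l - X i) * (X j - X l))
        = - (X l - X k) * ((X k + X l - X i - X j) * q.1 - (X k * X l - X i * X j)) := by ring
      rw [this, e]; ring
    rcases b1.eq_or_lt with h5 | h5
    · rw [← h5] at key
      have : (X l - X k) * ((X k - X i) * (X j - X k)) > 0 := mul_pos (by linarith) f1
      nlinarith
    · have : (q.1 - X k) * ((X l - X i) * (X j - X l)) > 0 := mul_pos (by linarith) f2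
      linarith

end Pool.Agent.K9h55.CD
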