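import Pool.Agent.K9h55.CD.Tri

set_option autoImplicit false

open Set Topology

namespace Pool.Agent.K9h55.CD

lemma L_comb (u w : ℝ) (a b : ℝ × ℝ) (t : ℝ) :
    L u w (a + t • (b - a)) = L u w a + t * (L u w b - L u w a) := by
  simp only [L, Prod.snd_add, Prod.fst_add, Prod.smul_snd, Prod.smul_fst, smul_eq_mul,
    Prod.fst_sub, Prod.snd_sub]
  ring

lemma two_zeros {u w : ℝ} {a b : ℝ × ℝ} {s t : ℝ} (hst : s ≠ t)
    (h1 : L u w (a + s • (b - a)) = 0) (h2 : L u w (a + t • (b - a)) = 0) :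
    L u w a = 0 ∧ L u w b = 0 := by
  rw [L_comb] at h1 h2
  have h3 : (s - t) * (L u w b - L u w a) = 0 := by linarith
  have h4 : L u w b - L u w a = 0 := by
    rcases mul_eq_zero.1 h3 with h | h
    · exact absurd (by linarith) hst
    · exact h
  rw [h4] at h1
  constructor <;> linarith

lemma line_unique {n : ℕ} {i j k l : Fin n} (hij : i < j) (hkl : k < l) {a b : ℝ × ℝ} (hab : a ≠ b)
    (h1 : L (X i) (X j) a = 0) (h2 : L (X i) (X j) b = 0) (h3 : L (X k) (X l) a = 0)
    (h4 : L (X k) (X l) b = 0) : i = k ∧ j = l := by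
  unfold L at h1 h2 h3 h4
  have hne : b.1 - a.1 ≠ 0 := by
    intro h0
    apply hab
    have e1 : a.1 = b.1 := by linarith
    ext
    · exact e1
    · rw [e1] at h1; linarith
  have hs : X i + X j = X k + X l := by
    have : (X i + X j - (X k + X l)) * (b.1 - a.1) = 0 := by linarith
    rcases mul_eq_zero.1 this with h | h
    · linarith
    · exact absurd h hne
  have hm : X i * X j = X k * X l := by
    rw [hs] at h1; linarith
  have hr : (X i - X k) * (X i - X l) = 0 := by
    have : (X i - X k) * (X i - X l) = X i ^ 2 - (X k + X l) * X i + X k * X l := by ring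
    rw [this, ← hs, ← hm]; ring
  rcases mul_eq_zero.1 hr with h | h
  · have e1 : X i = X k := by linarith
    have e2 : X j = X l := by linarith
    exact ⟨Fin.ext (X_inj e1), Fin.ext (X_inj e2)⟩
  · exfalso
    have e1 : X i = X l := by linarith
    have e2 : X j = X k := by linarith
    have := X_lt_iff.2 hij
    have := X_lt_iff.2 hkl
    linarith

lemma icc_of_closed {A : Set ℝ} (hA : IsClosed A) (h : (Icc (0 : ℝ) 1 \ A).Finite) :
    Icc (0 : ℝ) 1 ⊆ A := by
  intro t ht
  by_contra htA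
  have hcl : t ∈ closure (Ioo (0 : ℝ) 1) := by
    rw [closure_Ioo (by norm_num)]; exact ht
  obtain ⟨s, hs1, hs2⟩ := mem_closure_iff.1 hcl Aᶜ hA.isOpen_compl htA
  have hnb : Aᶜ ∩ Ioo (0 : ℝ) 1 ∈ 𝓝 s :=
    (hA.isOpen_compl.inter isOpen_Ioo).mem_nhds ⟨hs1, hs2⟩
  have hinf := infinite_of_mem_nhds s hnb
  apply hinf
  refine h.subset ?_
  rintro x ⟨h1, h2⟩
  exact ⟨Ioo_subset_Icc_self h2, h1⟩

/-- a segment in the union of the edges is in one edge -/
lemma side_chord {n : ℕ} {a b : ℝ × ℝ} (hab : a ≠ b) (h : segment ℝ a b ⊆ drawn (pp n)) :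
    ∃ i j : Fin n, i < j ∧ segment ℝ a b ⊆ segment ℝ (pp n i) (pp n j) := by
  classical
  set A : Fin n × Fin n → Set ℝ := fun e => {t | t ∈ Icc (0 : ℝ) 1 ∧ e.1 < e.2 ∧
    a + t • (b - a) ∈ segment ℝ (pp n e.1) (pp n e.2)} with hAdef
  have hcov : Icc (0 : ℝ) 1 ⊆ ⋃ e, A e := by
    intro t ht
    have h1 : a + t • (b - a) ∈ segment ℝ a b := by
      rw [segment_eq_image']; exact ⟨t, ht, rfl⟩
    obtain ⟨i, j, hij, hq⟩ := (mem_drawn _).1 (h h1)
    exact mem_iUnion.2 ⟨(i, j), ht, hij, hq⟩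
  obtain ⟨e0, he0⟩ : ∃ e, (A e).Infinite := by
    by_contra hcon
    push Not at hcon
    have : (⋃ e, A e).Finite := finite_iUnion fun e => hcon e
    exact (Icc_infinite (show (0 : ℝ) < 1 by norm_num)) (this.subset hcov)
  have hline : ∀ e, (A e).Infinite → e.1 < e.2 ∧ L (X e.1) (X e.2) a = 0 ∧
      L (X e.1) (X e.2) b = 0 := by
    intro e he
    obtain ⟨s, hs, t, ht, hst⟩ := he.nontrivial
    have h1 := (mem_chord hs.2.1 _).1 hs.2.2
    have h2 := (mem_chord ht.2.1 _).1 ht.2.2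
    exact ⟨hs.2.1, two_zeros hst h1.2.2 h2.2.2⟩
  have hfin : ∀ e, e ≠ e0 → (A e).Finite := by
    intro e hne
    by_contra hcon
    have h1 := hline e hcon
    have h2 := hline e0 he0
    obtain ⟨h3, h4⟩ := line_unique h1.1 h2.1 hab h1.2.1 h1.2.2 h2.2.1 h2.2.2
    exact hne (Prod.ext h3 h4)
  obtain ⟨hlt, ha0, hb0⟩ := hline e0 he0
  have hAe : A e0 = Icc (0 : ℝ) 1 ∩ {t | X e0.1 ≤ (a + t • (b - a)).1 ∧
      (a + t • (b - a)).1 ≤ X e0.2} := by
    ext t
    simp only [hAdef, mem_inter_iff]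
    constructor
    · rintro ⟨h1, h2, h3⟩
      have := (mem_chord h2 _).1 h3
      exact ⟨h1, this.1, this.2.1⟩
    · rintro ⟨h1, h2, h3⟩
      refine ⟨h1, hlt, (mem_chord hlt _).2 ⟨h2, h3, ?_⟩⟩
      rw [L_comb, ha0, hb0]; ring
  have hcl : IsClosed (A e0) := by
    rw [hAe]
    have hc : Continuous fun t : ℝ => (a + t • (b - a)).1 := by fun_prop
    exact isClosed_Icc.inter ((isClosed_le continuous_const hc).inter
      (isClosed_le hc continuous_const))
  have hcof : (Icc (0 : ℝ) 1 \ A e0).Finite := by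
    have : (⋃ e ∈ {e | e ≠ e0}, A e).Finite :=
      (Set.toFinite {e | e ≠ e0}).biUnion fun e he => hfin e he
    refine this.subset ?_
    rintro t ⟨h1, h2⟩
    obtain ⟨e, he⟩ := mem_iUnion.1 (hcov h1)
    refine mem_biUnion (x := e) ?_ he
    rintro rfl
    exact h2 he
  have hall := icc_of_closed hcl hcof
  refine ⟨e0.1, e0.2, hlt, ?_⟩
  rw [segment_eq_image']
  rintro _ ⟨t, ht, rfl⟩
  exact (hall ht).2.2

/-- the key inequality: the crossing of two edges is to the left of the third vertex -/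
lemma key_ineq {a b c d e : ℕ} (h1 : a < b) (h2 : b < c) (h3 : c < d) (h4 : d < e) :
    X b * X e - X a * X d < (X b + X e - X a - X d) * X c := by
  have := X_pos a
  have := X_pos b
  have := X_four h1
  have hbc := X_four h2
  have := X_four h3
  have hde := X_four h4
  have h5 : 3 * X c * X d ≤ (X c - X b) * X e := by
    have : (3 / 4 : ℝ) * X c ≤ X c - X b := by linarith
    nlinarith [mul_le_mul this hde (by linarith) (by linarith)]
  nlinarith [mul_pos (show 0 < X b - X a by linarith) (show 0 < X c by linarith),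
    mul_pos (show 0 < X c by linarith) (show 0 < X d by linarith)]

end Pool.Agent.K9h55.CD
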