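import Pool.Agent.K9h55.CD.Par

set_option autoImplicit false

open Set

namespace Pool.Agent.K9h55.CD

section tri

variable {a b c : ℝ × ℝ}

/-- the affine basis of the corners -/
noncomputable def bas (h : AffineIndependent ℝ ![a, b, c]) : AffineBasis (Fin 3) ℝ (ℝ × ℝ) :=
  ⟨![a, b, c], h, h.affineSpan_eq_top_iff_card_eq_finrank_add_one.2 (by simp)⟩

lemma bas_apply (h : AffineIndependent ℝ ![a, b, c]) (i : Fin 3) : bas h i = ![a, b, c] i := rfl

lemma int_eq (h : AffineIndependent ℝ ![a, b, c]) :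
    interior (convexHull ℝ {a, b, c}) = {q | ∀ i, 0 < (bas h).coord i q} := by
  have := (bas h).interior_convexHull
  rw [← this]
  congr 2
  ext x
  simp only [mem_insert_iff, mem_singleton_iff, mem_range]
  constructor
  · rintro (rfl | rfl | rfl)
    · exact ⟨0, rfl⟩
    · exact ⟨1, rfl⟩
    · exact ⟨2, rfl⟩
  · rintro ⟨i, rfl⟩
    fin_cases i
    · left; rfl
    · right; left; rfl
    · right; right; rfl

lemma coord_comb (h : AffineIndependent ℝ ![a, b, c]) {α β γ : ℝ} (hs : α + β + γ = 1) (i : Fin 3) :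
    (bas h).coord i (α • a + β • b + γ • c) = ![α, β, γ] i := by
  have hsum : ∑ i, (![α, β, γ] : Fin 3 → ℝ) i = 1 := by
    simp [Fin.sum_univ_three]; linarith
  have e : α • a + β • b + γ • c = Finset.univ.affineCombination ℝ (bas h) ![α, β, γ] := by
    rw [Finset.affineCombination_eq_linear_combination _ _ _ hsum, Fin.sum_univ_three]
    simp [bas_apply]
  rw [e, AffineBasis.coord_apply_combination_of_mem _ (Finset.mem_univ i) hsum]

lemma comb_coord (h : AffineIndependent ℝ ![a, b, c]) (q : ℝ × ℝ) :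
    ∃ α β γ : ℝ, α + β + γ = 1 ∧ q = α • a + β • b + γ • c ∧ (bas h).coord 0 q = α ∧
      (bas h).coord 1 q = β ∧ (bas h).coord 2 q = γ := by
  refine ⟨(bas h).coord 0 q, (bas h).coord 1 q, (bas h).coord 2 q, ?_, ?_, rfl, rfl, rfl⟩
  · have := (bas h).sum_coord_apply_eq_one q
    rw [Fin.sum_univ_three] at this
    exact this
  · have := (bas h).linear_combination_coord_eq_self q
    rw [Fin.sum_univ_three] at this
    simp only [bas_apply, Matrix.cons_val_zero, Matrix.cons_val_one, Matrix.cons_val] at this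
    exact this.symm

lemma mem_int_iff (h : AffineIndependent ℝ ![a, b, c]) (q : ℝ × ℝ) :
    q ∈ interior (convexHull ℝ {a, b, c}) ↔
      ∃ α β γ : ℝ, 0 < α ∧ 0 < β ∧ 0 < γ ∧ α + β + γ = 1 ∧ q = α • a + β • b + γ • c := by
  rw [int_eq h]
  constructor
  · intro hq
    obtain ⟨α, β, γ, hs, he, h0, h1, h2⟩ := comb_coord h q
    refine ⟨α, β, γ, ?_, ?_, ?_, hs, he⟩
    · rw [← h0]; exact hq 0
    · rw [← h1]; exact hq 1
    · rw [← h2]; exact hq 2
  · rintro ⟨α, β, γ, hα, hβ, hγ, hs, rfl⟩ i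
    rw [coord_comb h hs]
    fin_cases i
    · exact hα
    · exact hβ
    · exact hγ

/-- points of the sides are not in the interior -/
lemma side_notMem (h : AffineIndependent ℝ ![a, b, c]) {q : ℝ × ℝ} (hq : q ∈ segment ℝ b c) :
    q ∉ interior (convexHull ℝ {a, b, c}) := by
  obtain ⟨β, γ, hβ, hγ, hs, rfl⟩ := hq
  rw [int_eq h]
  intro hq
  have h1 := hq 0
  have e : β • b + γ • c = (0 : ℝ) • a + β • b + γ • c := by simp
  rw [e, coord_comb h (by linarith)] at h1
  simp at h1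

lemma int_nonempty (h : AffineIndependent ℝ ![a, b, c]) :
    (interior (convexHull ℝ {a, b, c})).Nonempty := by
  refine ⟨(1/3 : ℝ) • a + (1/3 : ℝ) • b + (1/3 : ℝ) • c, ?_⟩
  rw [mem_int_iff h]
  exact ⟨1/3, 1/3, 1/3, by norm_num, by norm_num, by norm_num, by norm_num, rfl⟩

lemma hull_sub_closure (h : AffineIndependent ℝ ![a, b, c]) :
    convexHull ℝ {a, b, c} ⊆ closure (interior (convexHull ℝ {a, b, c})) := by
  rw [(convex_convexHull ℝ {a, b, c}).closure_interior_eq_closure_of_nonempty_interior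
    (int_nonempty h)]
  exact subset_closure

/-- permutations of the corners -/
lemma aff_rot (h : AffineIndependent ℝ ![a, b, c]) : AffineIndependent ℝ ![b, c, a] := by
  have := (affineIndependent_equiv (finRotate 3) (p := ![a, b, c])).2 h
  convert this using 1
  ext i : 1
  fin_cases i <;> rfl

lemma aff_swap (h : AffineIndependent ℝ ![a, b, c]) : AffineIndependent ℝ ![a, c, b] := by
  have := (affineIndependent_equiv (Equiv.swap (1 : Fin 3) 2) (p := ![a, b, c])).2 h
  convert this using 1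
  ext i : 1
  fin_cases i <;> rfl

lemma set_rot : ({b, c, a} : Set (ℝ × ℝ)) = {a, b, c} := by
  ext x; simp only [mem_insert_iff, mem_singleton_iff]; tauto

lemma set_swap : ({a, c, b} : Set (ℝ × ℝ)) = {a, b, c} := by
  ext x; simp only [mem_insert_iff, mem_singleton_iff]; tauto

/-- criterion with three lines -/
lemma mem_int_of_lines (h : AffineIndependent ℝ ![a, b, c]) {u₁ w₁ u₂ w₂ u₃ w₃ : ℝ}
    (hb1 : L u₁ w₁ b = 0) (hc1 : L u₁ w₁ c = 0) (ha2 : L u₂ w₂ a = 0) (hc2 : L u₂ w₂ c = 0)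
    (ha3 : L u₃ w₃ a = 0) (hb3 : L u₃ w₃ b = 0) {q : ℝ × ℝ}
    (h1 : 0 < L u₁ w₁ q * L u₁ w₁ a) (h2 : 0 < L u₂ w₂ q * L u₂ w₂ b)
    (h3 : 0 < L u₃ w₃ q * L u₃ w₃ c) : q ∈ interior (convexHull ℝ {a, b, c}) := by
  obtain ⟨α, β, γ, hs, he, -⟩ := comb_coord h q
  rw [mem_int_iff h]
  have key : ∀ u w : ℝ, L u w q = α * L u w a + β * L u w b + γ * L u w c := by
    intro u w
    have e : α = 1 - β - γ := by linarith
    subst e
    rw [he]
    simp only [L, Prod.snd_add, Prod.fst_add, Prod.smul_snd, Prod.smul_fst, smul_eq_mul]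
    ring
  refine ⟨α, β, γ, ?_, ?_, ?_, hs, he⟩
  · rw [key, hb1, hc1] at h1
    have : 0 < α * (L u₁ w₁ a) ^ 2 := by nlinarith
    by_contra hn
    push Not at hn
    nlinarith [sq_nonneg (L u₁ w₁ a)]
  · rw [key, ha2, hc2] at h2
    have : 0 < β * (L u₂ w₂ b) ^ 2 := by nlinarith
    by_contra hn
    push Not at hn
    nlinarith [sq_nonneg (L u₂ w₂ b)]
  · rw [key, ha3, hb3] at h3
    have : 0 < γ * (L u₃ w₃ c) ^ 2 := by nlinarith
    by_contra hn
    push Not at hn
    nlinarith [sq_nonneg (L u₃ w₃ c)]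

end tri

section face

variable {n : ℕ} {p : Fin n → ℝ × ℝ} {F F' : Set (ℝ × ℝ)}

lemma face_sub (hF : IsFace p F) : F ⊆ (drawn p)ᶜ := by
  obtain ⟨_, x, _, rfl⟩ := hF
  exact connectedComponentIn_subset _ _

lemma face_closure (hF : IsFace p F) {q : ℝ × ℝ} (hq : q ∈ closure F) (hq2 : q ∉ drawn p) :
    q ∈ F := by
  obtain ⟨_, x, hx, rfl⟩ := hF
  have h1 : IsPreconnected (insert q (connectedComponentIn (drawn p)ᶜ x)) := by
    refine isPreconnected_connectedComponentIn.subset_closure (subset_insert _ _) ?_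
    rintro y (rfl | hy)
    · exact hq
    · exact subset_closure hy
  have h2 := h1.subset_connectedComponentIn (x := x) (F := (drawn p)ᶜ)
    (mem_insert_of_mem _ (mem_connectedComponentIn hx)) (by
      rintro y (rfl | hy)
      · exact hq2
      · exact connectedComponentIn_subset _ _ hy)
  exact h2 (mem_insert _ _)

lemma face_eq (hF : IsFace p F) (hF' : IsFace p F') {q : ℝ × ℝ} (h : q ∈ F) (h' : q ∈ F') :
    F = F' := by
  obtain ⟨_, x, hx, rfl⟩ := hF
  obtain ⟨_, y, hy, rfl⟩ := hF'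
  rw [connectedComponentIn_eq h, connectedComponentIn_eq h']

end face

end Pool.Agent.K9h55.CD
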